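import Pool.Agent.LeoK.UpStmts

/-! Squad leok, module BOX: integers in a box. -/

set_option autoImplicit false

open NumberField IsDedekindDomain Module MeasureTheory Filter Topology

namespace Pool.Agent.LeoK.H2

/-- integers with bounded conjugates, totally real case -/
lemma finite_le {k : Type} [Field k] [NumberField k] (hk : IsTotallyReal k) (R : ℝ) :
    {x : 𝓞 k | ∀ s : Sg k, |s (x : k)| ≤ R}.Finite := by
  have h := Embeddings.finite_of_norm_le k ℂ R
  refine Set.Finite.of_finite_image (f := fun x : 𝓞 k => (x : k)) (h.subset ?_)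
    (RingOfIntegers.coe_injective.injOn)
  rintro _ ⟨x, hx, rfl⟩
  refine ⟨x.isIntegral_coe, fun φ => ?_⟩
  have hr : ComplexEmbedding.IsReal φ :=
    InfinitePlace.isReal_mk_iff.1 (hk.isReal (InfinitePlace.mk φ))
  have h1 := hx hr.embedding
  rw [← hr.coe_embedding_apply, Complex.norm_real, Real.norm_eq_abs]
  exact h1

/-- BOX (no hypotheses) -/
theorem box : BoxStmt := by
  classical
  intro k _ _ hk
  have hF := finite_le hk 1
  set C : ℕ := hF.toFinset.card with hC
  have hC0 : 0 < C := by
    apply Finset.card_pos.2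
    refine ⟨0, ?_⟩
    rw [Set.Finite.mem_toFinset]
    intro s
    simp
  refine ⟨(C : ℝ), by exact_mod_cast hC0, ?_⟩
  intro α L hL
  set X : Set (𝓞 k) := {x : 𝓞 k | ∀ s : Sg k, α s ≤ s (x : k) ∧ s (x : k) ≤ α s + L s} with hX
  have hfin : X.Finite := by
    obtain ⟨R, hR⟩ : ∃ R : ℝ, ∀ s : Sg k, |α s| + L s ≤ R :=
      ⟨∑ s, (|α s| + L s), fun s => Finset.single_le_sum (f := fun s => |α s| + L s)
        (fun i _ => add_nonneg (abs_nonneg _) (hL i)) (Finset.mem_univ s)⟩
    refine (finite_le hk R).subset fun x hx s => ?_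
    obtain ⟨h1, h2⟩ := hx s
    have h3 := hR s
    have h4 := hL s
    rw [abs_le]
    constructor
    · have := neg_abs_le (α s)
      linarith
    · have := le_abs_self (α s)
      linarith
  refine ⟨hfin, ?_⟩
  rw [Set.ncard_eq_toFinset_card X hfin]
  set f : 𝓞 k → Sg k → ℕ := fun x s => ⌊s (x : k) - α s⌋₊ with hf
  have hcard : hfin.toFinset.card ≤ C * (hfin.toFinset.image f).card := by
    refine Finset.card_le_mul_card_image _ _ ?_
    intro g hg
    obtain ⟨x', hx', hx'g⟩ := Finset.mem_image.1 hg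
    rw [Set.Finite.mem_toFinset] at hx'
    refine Finset.card_le_card_of_injOn (fun x => x - x') ?_ ?_
    · intro x hx
      rw [Finset.mem_coe, Finset.mem_filter, Set.Finite.mem_toFinset] at hx
      rw [Finset.mem_coe, Set.Finite.mem_toFinset]
      intro s
      have h1 : ⌊s (x : k) - α s⌋₊ = ⌊s (x' : k) - α s⌋₊ := by
        have := congrFun (hx.2.trans hx'g.symm) s
        exact this
      have h2 : 0 ≤ s (x : k) - α s := sub_nonneg.2 (hx.1 s).1
      have h3 : 0 ≤ s (x' : k) - α s := sub_nonneg.2 (hx' s).1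
      have h4 := Nat.floor_le h2
      have h5 := Nat.floor_le h3
      have h6 := Nat.lt_floor_add_one (s (x : k) - α s)
      have h7 := Nat.lt_floor_add_one (s (x' : k) - α s)
      rw [h1] at h4 h6
      have h8 : s ((x - x' : 𝓞 k) : k) = s (x : k) - s (x' : k) := by
        have h80 : ((x - x' : 𝓞 k) : k) = (x : k) - (x' : k) := map_sub (algebraMap (𝓞 k) k) x x'
        rw [h80, map_sub]
      rw [h8, abs_le]
      constructor <;> linarith
    · intro x _ y _ hxy
      exact sub_left_injective hxy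
  have hsub : hfin.toFinset.image f ⊆ Fintype.piFinset fun s => Finset.range (⌊L s⌋₊ + 1) := by
    intro g hg
    obtain ⟨x, hx, rfl⟩ := Finset.mem_image.1 hg
    rw [Set.Finite.mem_toFinset] at hx
    rw [Fintype.mem_piFinset]
    intro s
    rw [Finset.mem_range, Nat.lt_succ_iff]
    exact Nat.floor_le_floor (by linarith [(hx s).2])
  have hc2 := Finset.card_le_card hsub
  rw [Fintype.card_piFinset] at hc2
  have h9 : (hfin.toFinset.card : ℝ) ≤ C * ∏ s : Sg k, ((⌊L s⌋₊ + 1 : ℕ) : ℝ) := by
    have h10 : hfin.toFinset.card ≤ C * ∏ s : Sg k, (⌊L s⌋₊ + 1) := by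
      refine hcard.trans (Nat.mul_le_mul_left _ ?_)
      refine hc2.trans (le_of_eq ?_)
      refine Finset.prod_congr rfl fun s _ => ?_
      rw [Finset.card_range]
    exact_mod_cast h10
  refine h9.trans (mul_le_mul_of_nonneg_left ?_ (Nat.cast_nonneg _))
  refine Finset.prod_le_prod (fun s _ => Nat.cast_nonneg _) fun s _ => ?_
  push_cast
  have := Nat.floor_le (hL s)
  linarith

end Pool.Agent.LeoK.H2
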