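import Pool.Agent.LeoK.StrStmts

/-! Squad leok, module INH: inheritance. -/

set_option autoImplicit false

open NumberField IsDedekindDomain WithZero Module
open Pool.Agent.Helper85_Leo Pool.Agent.Leo3

namespace Pool.Agent.LeoK.H2

lemma quad_span' {k F : Type} [Field k] [Field F] [Algebra k F] {r : F} (hF : finrank k F = 2)
    (hr : ∀ x : k, algebraMap k F x ≠ r) (z : F) :
    ∃ a b : k, z = algebraMap k F a + algebraMap k F b * r := by
  have hli : LinearIndependent k ![(1 : F), r] := by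
    rw [LinearIndependent.pair_iff]
    intro s t hst
    rw [Algebra.smul_def, Algebra.smul_def, mul_one] at hst
    by_cases ht : t = 0
    · subst ht
      rw [map_zero, zero_mul, add_zero] at hst
      exact ⟨(map_eq_zero (algebraMap k F)).1 hst, rfl⟩
    · exfalso
      apply hr (-s / t)
      have ht' : algebraMap k F t ≠ 0 := (map_ne_zero (algebraMap k F)).2 ht
      rw [map_div₀, map_neg, div_eq_iff ht']
      linear_combination -hst
  have hfd : FiniteDimensional k F := FiniteDimensional.of_finrank_pos (by omega)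
  have hsp := hli.span_eq_top_of_card_eq_finrank' (by rw [hF]; rfl)
  have hz : z ∈ Submodule.span k (Set.range ![(1 : F), r]) := by rw [hsp]; trivial
  rw [Matrix.range_cons, Matrix.range_cons, Matrix.range_empty, Set.union_empty,
    Set.singleton_union, Submodule.mem_span_pair] at hz
  obtain ⟨a, b, hab⟩ := hz
  exact ⟨a, b, by rw [← hab, Algebra.smul_def, Algebra.smul_def, mul_one]⟩

lemma real_up {k K : Type} [Field k] [NumberField k] [Field K] [NumberField K] [Algebra k K]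
    {m : 𝓞 k} {r : K} (hk : IsTotallyReal k) (h2 : finrank k K = 2)
    (hr : r ^ 2 = algebraMap k K (3 * (m : k))) (hpos : ∀ φ : k →+* ℝ, 0 < φ m)
    (hnsq : ∀ x : k, x ^ 2 ≠ 3 * (m : k)) : IsTotallyReal K := by
  refine ⟨fun v => ?_⟩
  rw [InfinitePlace.isReal_iff, ComplexEmbedding.isReal_iff]
  set ψ : K →+* ℂ := v.embedding with hψ
  have h1 : ComplexEmbedding.IsReal (ψ.comp (algebraMap k K)) := by
    have := hk.isReal (InfinitePlace.mk (ψ.comp (algebraMap k K)))
    exact InfinitePlace.isReal_mk_iff.1 this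
  have h0 : ∀ x : k, ψ (algebraMap k K x) = ((h1.embedding x : ℝ) : ℂ) := fun x =>
    (h1.coe_embedding_apply x).symm
  have hr' : ∀ x : k, algebraMap k K x ≠ r := by
    intro x hx
    apply hnsq x
    apply (algebraMap k K).injective
    rw [map_pow, hx, hr]
  -- the image of r is real
  have hψr : ∃ y : ℝ, ψ r = (y : ℂ) := by
    have hp := hpos h1.embedding
    have hsq : ψ r ^ 2 = ((Real.sqrt (3 * h1.embedding (m : k)) : ℝ) : ℂ) ^ 2 := by
      rw [← map_pow, hr, h0, ← Complex.ofReal_pow, Real.sq_sqrt (by positivity), map_mul,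
        map_ofNat]
    rcases sq_eq_sq_iff_eq_or_eq_neg.1 hsq with h | h
    · exact ⟨_, h⟩
    · exact ⟨-Real.sqrt (3 * h1.embedding (m : k)), by rw [h, Complex.ofReal_neg]⟩
  obtain ⟨y, hy⟩ := hψr
  ext z
  obtain ⟨a, b, rfl⟩ := quad_span' h2 hr' z
  obtain ⟨A, hA⟩ : ∃ A : ℝ, ψ (algebraMap k K a) = A := ⟨_, h0 a⟩
  obtain ⟨B, hB⟩ : ∃ B : ℝ, ψ (algebraMap k K b) = B := ⟨_, h0 b⟩
  rw [ComplexEmbedding.conjugate_coe_eq, map_add, map_mul, hA, hB, hy, map_add, map_mul,
    Complex.conj_ofReal, Complex.conj_ofReal, Complex.conj_ofReal]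

lemma trOn_up {k K : Type} [Field k] [NumberField k] [Field K] [NumberField K] [Algebra k K]
    (h2 : finrank k K = 2) (h : TrOn k) : TrOn K := by
  obtain ⟨x, hx⟩ := h
  refine ⟨algebraMap (𝓞 k) (𝓞 K) x, fun hd => hx ?_⟩
  have h1 : Algebra.trace ℤ (𝓞 K) (algebraMap (𝓞 k) (𝓞 K) x) = 2 * Algebra.trace ℤ (𝓞 k) x := by
    have h3 : ((Algebra.trace ℤ (𝓞 K) (algebraMap (𝓞 k) (𝓞 K) x) : ℤ) : ℚ) =
        ((2 * Algebra.trace ℤ (𝓞 k) x : ℤ) : ℚ) := by
      rw [Algebra.coe_trace_int, Int.cast_mul, Algebra.coe_trace_int]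
      have h4 : ((algebraMap (𝓞 k) (𝓞 K) x : 𝓞 K) : K) = algebraMap k K (x : k) := rfl
      rw [h4, ← Algebra.trace_trace (S := k), Algebra.trace_algebraMap, h2, map_nsmul,
        nsmul_eq_mul]
      rfl
    exact_mod_cast h3
  rw [h1] at hd
  exact (Int.isCoprime_iff_gcd_eq_one.2 (by norm_num)).dvd_of_dvd_mul_left hd

/-- INH -/
theorem inh (hredp : RedpStmt) (hleor : LeorStmt) (htwi : TwiStmt) (hrat : RatStmt) : InhStmt := by
  intro k K _ _ _ _ _ m r hreal h2 hr hadm hmu hwm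
  have hR : IsTotallyReal K := real_up hreal h2 hr hadm.pos hadm.nsq
  refine ⟨hR, hleor k K h2 hmu hwm, ?_, ?_⟩
  · intro hk
    have hK : Rat3 K := ⟨hR, hmu, hredp k K h2 hmu hk.w3 hwm, trOn_up h2 hk.tr⟩
    exact ⟨hK, hrat K hK⟩
  · intro M L _ _ _ _ _ _ _ _ _ _ _ j hj hML htn hM
    obtain ⟨h3, h4⟩ := htwi k K M L j h2 hj hML htn hmu hwm
    exact hleor M L hML h3 h4 hM

end Pool.Agent.LeoK.H2
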